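import Pool.Agent.Lib.helper1.BK3

set_option autoImplicit false

namespace Pool.Agent.Results.MP_ba6fcf_pr.InfiniteMean

open MeasureTheory ProbabilityTheory Filter Topology Pool.Agent.Lib.helper1.BK
open scoped ENNReal

theorem result : ∃ (S : Type) (_ : MeasurableSpace S) (_ : StandardBorelSpace S)
    (μ : Measure (ℤ → S)), IsProbabilityMeasure μ ∧
    (∀ k : ℤ, μ.map (fun x i => x (i + k)) = μ) ∧
    (∀ A B : Set ℤ, (∀ i ∈ A, ∀ j ∈ B, 1 < |i - j|) →
      IndepFun (fun (x : ℤ → S) (i : A) => x i) (fun (x : ℤ → S) (j : B) => x j) μ) ∧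
    ∀ (T : Type) [MeasurableSpace T] (ρ : Measure T) [IsProbabilityMeasure ρ]
      (φ : (ℤ → T) → ℤ → S), Measurable φ →
      (∀ k : ℤ, ∀ᵐ y ∂(Measure.infinitePi fun _ : ℤ => ρ),
        φ (fun i => y (i + k)) = fun i => φ y (i + k)) →
      (Measure.infinitePi fun _ : ℤ => ρ).map φ = μ →
      ∫⁻ y, (⨅ (r : ℕ) (_ : ∀ y' : ℤ → T, (∀ i : ℤ, |i| ≤ r → y' i = y i) → φ y' 0 = φ y 0),
        (r : ℝ≥0∞)) ∂(Measure.infinitePi fun _ : ℤ => ρ) = ∞ := by
  refine ⟨St, inferInstance, inferInstance, (ν ρ0).map Φ,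
    Measure.isProbabilityMeasure_map m_Φ.aemeasurable, fun k => ?_, fun A B h => ?_,
    fun T _ ρ _ φ hφ he hm => ?_⟩
  · conv_rhs => rw [← (shift ρ0 k).map_eq]
    rw [Measure.map_map (by fun_prop) m_Φ, Measure.map_map m_Φ (by fun_prop)]
    congr 1
    exact funext fun ω => (Φ_sh k ω).symm
  · exact (indep_comp ⟨m_Φ, rfl⟩ (by fun_prop) (by fun_prop)).2 (dep A B h)
  obtain ⟨t⟩ := nonempty_of_isProbabilityMeasure ρ
  let f : ℕ → (ℤ → T) → St := fun n y => φ (fun i => if |i| ≤ n then y i else t) 0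
  have mf : ∀ n, Measurable (f n) := fun n => (measurable_pi_apply 0).comp (hφ.comp
    (measurable_pi_lambda _ fun i => by split_ifs <;> fun_prop))
  have mH : ∀ n, MeasurableSet {y | φ y 0 ≠ f n y} := fun n =>
    (measurableSet_eq_fun (by fun_prop) (mf n)).compl
  have lo : ∀ n : ℕ, 1 / (10 ^ 9 * ((n : ℝ) + 1)) ≤ (ν ρ).real {y | φ y 0 ≠ f n y} :=
    fun n => Lib.helper1.BK.lower ρ hφ he hm n (mf n)
    fun y y' h => by
      simp only [f]
      congr 2
      ext i
      split_ifs with c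
      exacts [h i c, rfl]
  refine top_le_iff.1 (le_trans ?_ (lintegral_mono (f := fun y => ∑' n,
    {y | φ y 0 ≠ f n y}.indicator 1 y) fun y => le_iInf₂ fun r hr => ?_))
  · rw [lintegral_tsum fun n => (measurable_one.indicator (mH n)).aemeasurable]
    simp only [lintegral_indicator_one (mH _)]
    by_contra hc
    have := ENNReal.summable_toReal (ne_top_of_lt (not_le.1 hc))
    have := (Summable.of_nonneg_of_le (fun n => by positivity) lo this).mul_left (10 ^ 9)
    refine Real.not_summable_natCast_inv ((summable_nat_add_iff 1).1 (this.congr fun n => ?_))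
    push_cast
    field_simp
  · beta_reduce
    rw [tsum_eq_sum (s := Finset.range r) fun n hn => Set.indicator_of_notMem
      (s := {y | φ y 0 ≠ f n y}) (fun h : φ y 0 ≠ f n y => h
      (hr _ fun i hi => if_pos (hi.trans (by simpa using hn))).symm) _]
    refine (Finset.sum_le_card_nsmul _ _ 1 fun n _ => Set.indicator_le_self _ _ y).trans ?_
    simp

end Pool.Agent.Results.MP_ba6fcf_pr.InfiniteMean
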